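import Pool.Agent.OSP.Fin

/-!
# One stable skyscraper sheaf makes a stability condition geometric
-/

open CategoryTheory CategoryTheory.Limits AlgebraicGeometry Pool.Agent.BE Pool.Agent.BE.C

namespace Pool.Agent.Results.MP_feab0e_ag.OneStablePoint

universe w

/-- Let `S` be a projective surface over `ℂ` with a finite étale covering `E × F → S` by a product
of smooth projective curves of positive genus (for example a Beauville-type or a bielliptic
surface). Let `σ` be a (locally finite) Bridgeland stability condition on the bounded derived
category of coherent sheaves of `S` and suppose that ONE skyscraper sheaf `O_z` is `σ`-stable, of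
phase `φ`. Then every skyscraper sheaf `O_x` with `Z(O_x) = Z(O_z)` is `σ`-stable of phase `φ`. In
particular, if `Z(O_x)` does not depend on `x` (for example if `Z` factors through the numerical
Grothendieck group) then `σ` is geometric. -/
theorem result (B : OSP.IsogSurface) [HasDerivedCategory.{w} (QSh B.S)] (σ : Stab B.S) (z : B.S)
    (hz : IsClosed ({z} : Set B.S)) (φ : ℝ) (h : SkyStable σ φ z) :
    ∀ x : B.S, IsClosed ({x} : Set B.S) → skyZ σ x = skyZ σ z → SkyStable σ φ x :=
  fun x hx hZ => OSP.final B σ z hz φ h x hx hZ

end Pool.Agent.Results.MP_feab0e_ag.OneStablePoint
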