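import Pool.Agent.BE.C.Fin

/-!
# All stability conditions on bielliptic surfaces are geometric
-/

open CategoryTheory CategoryTheory.Limits AlgebraicGeometry Pool.Agent.BE Pool.Agent.BE.C

namespace Pool.Agent.Results.MP_feab0e_ag.QuotientSurfaces

universe w

/-- Let `S = (E × F)/G` be a projective surface over `ℂ`, where `E`, `F` and `C = E/G` are smooth
projective curves of positive genus and the finite group `G` acts freely on `E` and acts on `F`
(for example a bielliptic surface). For every (locally finite) Bridgeland stability condition `σ`
on the bounded derived category of coherent sheaves of `S`: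
* every skyscraper sheaf `O_x` at a closed point `x` is `σ`-stable;
* the phases of two skyscraper sheaves differ by less than `2`;
* if `Z(O_x)` does not depend on `x` (for example if `Z` factors through the numerical
  Grothendieck group) then all the `O_x` have the same phase, i.e. `σ` is geometric. -/
theorem result (B : C.QuotSurface) [HasDerivedCategory.{w} (QSh B.S)] (σ : Stab B.S) :
    (∀ x : B.S, IsClosed ({x} : Set B.S) → ∃ φ : ℝ, SkyStable σ φ x) ∧
    (∀ x y : B.S, IsClosed ({x} : Set B.S) → IsClosed ({y} : Set B.S) → ∀ φ ψ : ℝ,
      SkyStable σ φ x → SkyStable σ ψ y → |φ - ψ| < 2) ∧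
    ((∀ x y : B.S, IsClosed ({x} : Set B.S) → IsClosed ({y} : Set B.S) → skyZ σ x = skyZ σ y) →
      ∃ φ : ℝ, ∀ x : B.S, IsClosed ({x} : Set B.S) → SkyStable σ φ x) :=
  final B σ

end Pool.Agent.Results.MP_feab0e_ag.QuotientSurfaces
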